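import Mathlib
import Pool.Agent.Y670.RD.Frm

/-!
# Poles of a rational function modulo primes (helper964)
-/

set_option autoImplicit false

namespace Pool.Agent.U964.FM

open Polynomial
open Pool.Agent.Y670.RD (fv fv_le fv_mod fv_mul fvq)

/-- clear denominators -/
theorem clr (Q : ℚ[X]) : ∃ (c : ℤ) (Q' : ℤ[X]), c ≠ 0 ∧
    Q'.map (Int.castRingHom ℚ) = C (c : ℚ) * Q := by
  obtain ⟨b, hb', hb⟩ := IsLocalization.integerNormalization_spec (nonZeroDivisors ℤ) Q
  refine ⟨(b : ℤ), IsLocalization.integerNormalization (nonZeroDivisors ℤ) Q,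
    nonZeroDivisors.ne_zero hb', ?_⟩
  have h : (Int.castRingHom ℚ) = algebraMap ℤ ℚ := rfl
  rw [h, hb]
  ext i
  simp [Algebra.smul_def]

/-- common zeros modulo primes -/
theorem arith {A D g : ℤ[X]} {N γ : ℕ} (hA : A.natDegree ≤ N) (hD : D.natDegree ≤ N) (hD0 : D ≠ 0)
    (hcop : IsCoprime (A.map (Int.castRingHom ℚ)) (D.map (Int.castRingHom ℚ)))
    (hg : g.natDegree = γ) (hgD : g.map (Int.castRingHom ℚ) ∣ D.map (Int.castRingHom ℚ)) :
    ∃ M : ℕ, 0 < M ∧ ∀ s t : ℤ, t ≠ 0 → IsCoprime s t → ∀ p : ℕ, p.Prime → ¬ p ∣ M →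
      (p : ℤ) ∣ fv γ g s t → (p : ℤ) ∣ fv N D s t ∧ ¬ (p : ℤ) ∣ fv N A s t := by
  have hinj : Function.Injective (Int.castRingHom ℚ) := Int.cast_injective
  obtain ⟨Q, hQ⟩ := hgD
  obtain ⟨c, Q', hc, hQ'⟩ := clr Q
  have hDm : D.map (Int.castRingHom ℚ) ≠ 0 := (Polynomial.map_ne_zero_iff hinj).2 hD0
  have hg0 : g ≠ 0 := by
    rintro rfl
    rw [Polynomial.map_zero, zero_mul] at hQ
    exact hDm hQ
  have e1 : C c * D = g * Q' := by
    apply Polynomial.map_injective _ hinj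
    rw [Polynomial.map_mul, Polynomial.map_mul, hQ', Polynomial.map_C, hQ]
    simp only [eq_intCast]
    ring
  have hQ0 : Q' ≠ 0 := by
    rintro rfl
    rw [mul_zero] at e1
    exact mul_ne_zero (C_ne_zero.2 hc) hD0 e1
  have hdeg : γ + Q'.natDegree ≤ N := by
    have h := congrArg natDegree e1
    rw [natDegree_C_mul hc, natDegree_mul hg0 hQ0, hg] at h
    omega
  obtain ⟨U, V, hUV⟩ := hcop
  obtain ⟨c1, U1, hc1, hU1⟩ := clr U
  obtain ⟨c2, V1, hc2, hV1⟩ := clr V
  have e2 : C c2 * U1 * A + C c1 * V1 * D = C (c1 * c2) := by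
    apply Polynomial.map_injective _ hinj
    rw [Polynomial.map_add, Polynomial.map_mul, Polynomial.map_mul, Polynomial.map_mul,
      Polynomial.map_mul, hU1, hV1, Polynomial.map_C, Polynomial.map_C, Polynomial.map_C,
      map_mul, C_mul, eq_intCast (Int.castRingHom ℚ) c1, eq_intCast (Int.castRingHom ℚ) c2]
    linear_combination (C (c1 : ℚ) * C (c2 : ℚ)) * hUV
  set U2 := C c2 * U1 with hU2
  set V2 := C c1 * V1 with hV2
  set e := max U2.natDegree V2.natDegree with he
  have hlc : g.coeff γ ≠ 0 := by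
    rw [← hg]
    exact leadingCoeff_ne_zero.2 hg0
  refine ⟨c.natAbs * (g.coeff γ).natAbs * (c1 * c2).natAbs, by
    have := Int.natAbs_pos.2 hc
    have := Int.natAbs_pos.2 hlc
    have := Int.natAbs_pos.2 (mul_ne_zero hc1 hc2)
    positivity, ?_⟩
  intro s t ht hst p hp hpM hpg
  have hpZ : Prime (p : ℤ) := Nat.prime_iff_prime_int.1 hp
  have n1 : ¬ (p : ℤ) ∣ c := by
    intro h
    apply hpM
    exact ((Int.natCast_dvd.1 h).mul_right _).mul_right _
  have n2 : ¬ (p : ℤ) ∣ g.coeff γ := by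
    intro h
    apply hpM
    exact ((Int.natCast_dvd.1 h).mul_left _).mul_right _
  have n3 : ¬ (p : ℤ) ∣ c1 * c2 := by
    intro h
    apply hpM
    exact (Int.natCast_dvd.1 h).mul_left _
  have n4 : ¬ (p : ℤ) ∣ t := by
    intro h
    have h1 : (p : ℤ) ∣ g.coeff γ * s ^ γ := by
      have h2 := h.trans (fv_mod γ g s t)
      have h3 := dvd_sub hpg h2
      rwa [sub_sub_cancel] at h3
    rcases hpZ.dvd_or_dvd h1 with h2 | h2
    · exact n2 h2
    · have h3 := hpZ.dvd_of_dvd_pow h2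
      obtain ⟨a, b, hab⟩ := hst
      have h4 : (p : ℤ) ∣ 1 := by
        rw [← hab]
        exact dvd_add (h3.mul_left _) (h.mul_left _)
      exact hpZ.not_isUnit (isUnit_of_dvd_one h4)
  have hpD : (p : ℤ) ∣ fv N D s t := by
    have h1 : fv N (C c * D) s t = c * fv N D s t := by
      unfold fv
      rw [Finset.mul_sum]
      refine Finset.sum_congr rfl fun i _ => ?_
      rw [coeff_C_mul]
      ring
    have h2 : fv N (C c * D) s t = fv γ g s t * fv (N - γ) Q' s t := by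
      have h3 := fv_mul (N1 := γ) (N2 := N - γ) (f := g) (g := Q') hg.le (by omega) (s := s) ht
      rw [← h3, e1]
      congr 1
      omega
    have h4 : (p : ℤ) ∣ c * fv N D s t := by
      rw [← h1, h2]
      exact hpg.mul_right _
    exact (hpZ.dvd_or_dvd h4).resolve_left n1
  refine ⟨hpD, fun hpA => ?_⟩
  have h1 : fv e U2 s t * fv N A s t + fv e V2 s t * fv N D s t = (c1 * c2) * t ^ (e + N) := by
    have h2 := fv_mul (N1 := e) (N2 := N) (f := U2) (g := A) (le_max_left _ _) hA (s := s) ht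
    have h3 := fv_mul (N1 := e) (N2 := N) (f := V2) (g := D) (le_max_right _ _) hD (s := s) ht
    rw [← h2, ← h3]
    have h4 : fv (e + N) (U2 * A) s t + fv (e + N) (V2 * D) s t =
        fv (e + N) (U2 * A + V2 * D) s t := by
      unfold fv
      rw [← Finset.sum_add_distrib]
      refine Finset.sum_congr rfl fun i _ => ?_
      rw [coeff_add]
      ring
    rw [h4, e2]
    unfold fv
    rw [Finset.sum_eq_single 0]
    · rw [coeff_C_zero, pow_zero, mul_one, Nat.sub_zero]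
    · intro i _ hi
      rw [coeff_C_of_ne_zero hi]
      ring
    · intro h
      exact absurd (Finset.mem_range.2 (by omega)) h
  have h5 : (p : ℤ) ∣ (c1 * c2) * t ^ (e + N) := by
    rw [← h1]
    exact dvd_add (hpA.mul_left _) (hpD.mul_left _)
  rcases hpZ.dvd_or_dvd h5 with h6 | h6
  · exact n3 h6
  · exact n4 (hpZ.dvd_of_dvd_pow h6)

/-- the weight of the primes which divide an integer to a high power -/
theorem high (F : ℤ) (hF : F ≠ 0) (P : ℕ) (T : Finset ℕ)
    (hT : ∀ p ∈ T, p.Prime ∧ P ≤ padicValInt p F) :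
    P * ∑ p ∈ T, Real.log p ≤ Real.log |(F : ℝ)| := by
  classical
  have hn : F.natAbs ≠ 0 := Int.natAbs_ne_zero.2 hF
  have h1 : (∏ p ∈ T, p ^ P) ∣ F.natAbs := by
    refine Finset.prod_dvd_of_isRelPrime ?_ ?_
    · intro p hp q hq hpq
      exact Nat.coprime_iff_isRelPrime.1
        (Nat.Coprime.pow _ _ ((Nat.coprime_primes (hT p hp).1 (hT q hq).1).2 hpq))
    · intro p hp
      haveI : Fact p.Prime := ⟨(hT p hp).1⟩
      exact (padicValNat_dvd_iff_le hn).2 (hT p hp).2
  have h2 : ((∏ p ∈ T, p ^ P : ℕ) : ℝ) ≤ |(F : ℝ)| := by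
    have h3 := Nat.le_of_dvd (Nat.pos_of_ne_zero hn) h1
    have h4 : ((F.natAbs : ℕ) : ℝ) = |(F : ℝ)| := by
      rw [Nat.cast_natAbs, Int.cast_abs]
    rw [← h4]
    exact_mod_cast h3
  have h3 : (P : ℝ) * ∑ p ∈ T, Real.log p = Real.log ((∏ p ∈ T, p ^ P : ℕ) : ℝ) := by
    push_cast
    rw [Real.log_prod (fun p hp => by
      have := (hT p hp).1.pos
      positivity), Finset.mul_sum]
    refine Finset.sum_congr rfl fun p _ => ?_
    rw [Real.log_pow]
  rw [h3]
  apply Real.log_le_log _ h2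
  have : 0 < ∏ p ∈ T, p ^ P := Finset.prod_pos fun p hp => pow_pos (hT p hp).1.pos _
  exact_mod_cast this

end Pool.Agent.U964.FM
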