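import Pool.Agent.U964.FM.Enough
import Pool.Agent.N365.LS.F6

/-!
# Enough poles at the sparse points (helper964)
-/

set_option autoImplicit false

namespace Pool.Agent.U964.FM

open Polynomial
open Pool.Agent.Y670.RD (fv fv_le fv_mod fv_mul fvq)
open Pool.Agent.U964.SZ (Sp)
open Pool.Agent.N365.LS (Enough)

theorem enough_sparse {A D g : ℤ[X]} {N : ℕ} (hA : A.natDegree ≤ N) (hD : D.natDegree ≤ N)
    (hD0 : D ≠ 0) (hdeg : A.natDegree = N ∨ D.natDegree = N)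
    (hcop : IsCoprime (A.map (Int.castRingHom ℚ)) (D.map (Int.castRingHom ℚ)))
    (hsq : Squarefree (g.map (Int.castRingHom ℚ)))
    (hgD : g.map (Int.castRingHom ℚ) ∣ D.map (Int.castRingHom ℚ)) (e : ℕ) (he : e ≤ 1)
    (h2 : 2 ≤ g.natDegree + e) (S : Finset ℕ) (hS : ∀ p ∈ S, p.Prime) (l m : ℕ) (B θ ε σ : ℝ)
    (hε : 0 < ε) (hη : 0 < (g.natDegree + e : ℕ) - 2 - θ - ε)
    (hσ : 2 * ((N : ℝ) + 1) ≤ σ * ((g.natDegree + e : ℕ) - 2 - θ - ε)) :
    ∃ δ H₀ : ℝ, 0 < δ ∧ ∀ (x : ℚ) (κ : ℕ) (τ : ℚ), (e = 1 → D.natDegree < N ∨ x.den = 1) → 0 < κ →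
      (κ : ℝ) ≤ B * (max |(x.num : ℝ)| (x.den : ℝ)) ^ θ →
      fv (g.natDegree + e) g x.num x.den ≠ 0 → fv N D x.num x.den ≠ 0 →
      ((κ * ∏ p ∈ (fv (g.natDegree + e) g x.num x.den).natAbs.primeFactors \ S, p : ℕ) : ℚ) ^ m =
        fv (g.natDegree + e) g x.num x.den * τ →
      Sp S l (B * (max |(x.num : ℝ)| (x.den : ℝ)) ^ δ) (x.num : ℚ) →
      Sp S l (B * (max |(x.num : ℝ)| (x.den : ℝ)) ^ δ) (x.den : ℚ) →
      Sp S l (B * (max |(x.num : ℝ)| (x.den : ℝ)) ^ δ)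
        ((κ * ∏ p ∈ (fv (g.natDegree + e) g x.num x.den).natAbs.primeFactors \ S, p : ℕ) : ℚ) →
      Sp S l (B * (max |(x.num : ℝ)| (x.den : ℝ)) ^ δ) τ →
      H₀ ≤ max |(x.num : ℝ)| (x.den : ℝ) →
      Enough σ (fv N A x.num x.den) (fv N D x.num x.den) := by
  obtain ⟨δ, C, hδ, hmain⟩ := poles_sparse hA hD hD0 hdeg hcop hsq hgD e he h2 S hS l m B ε hε
  obtain ⟨η, hηd⟩ : ∃ η : ℝ, η = (g.natDegree + e : ℕ) - 2 - θ - ε := ⟨_, rfl⟩
  rw [← hηd] at hη hσ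
  have hσ0 : 0 < σ := by
    by_contra hcon
    have h5 : σ * η ≤ 0 := mul_nonpos_of_nonpos_of_nonneg (not_lt.1 hcon) hη.le
    have h6 : (0 : ℝ) ≤ N := Nat.cast_nonneg _
    linarith
  set c₀ : ℝ := 1 + ∑ i ∈ Finset.range (N + 1), |(A.coeff i : ℝ)| +
    ∑ i ∈ Finset.range (N + 1), |(D.coeff i : ℝ)| with hc₀
  have hsA : 0 ≤ ∑ i ∈ Finset.range (N + 1), |(A.coeff i : ℝ)| :=
    Finset.sum_nonneg fun _ _ => abs_nonneg _
  have hsD : 0 ≤ ∑ i ∈ Finset.range (N + 1), |(D.coeff i : ℝ)| :=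
    Finset.sum_nonneg fun _ _ => abs_nonneg _
  have hc1 : 1 ≤ c₀ := by rw [hc₀]; linarith
  have hlc : 0 ≤ Real.log c₀ := Real.log_nonneg hc1
  set C' : ℝ := |Real.log B| + |C| with hC'
  have hC'0 : 0 ≤ C' := by positivity
  refine ⟨δ, Real.exp (Real.log c₀ + σ * C' / 2 + (C' + 1) / η), hδ, ?_⟩
  intro x κ τ hex hκ hκB hG0 hF0 hτ h1 h2 h3 h4 hH₀
  obtain ⟨F, hF, hle⟩ := hmain x κ τ hex hκ hG0 hτ h1 h2 h3 h4
  obtain ⟨H, hH⟩ : ∃ H : ℝ, H = max |(x.num : ℝ)| (x.den : ℝ) := ⟨_, rfl⟩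
  rw [← hH] at hle hκB hH₀
  have hH1 : 1 ≤ H := by
    rw [hH]
    refine le_max_of_le_right ?_
    exact_mod_cast x.den_pos
  have hHp : 0 < H := by linarith
  have hlH : Real.log c₀ + σ * C' / 2 + (C' + 1) / η ≤ Real.log H := by
    rw [Real.le_log_iff_exp_le hHp]
    exact hH₀
  have hκ1 : (1 : ℝ) ≤ κ := by exact_mod_cast hκ
  have hHθ : 0 < H ^ θ := Real.rpow_pos_of_pos hHp _
  have hB : 0 < B := by
    by_contra hB
    have h5 : B * H ^ θ ≤ 0 := mul_nonpos_of_nonpos_of_nonneg (not_lt.1 hB) hHθ.le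
    linarith
  have hlogκ : Real.log κ ≤ Real.log B + θ * Real.log H := by
    have h5 := Real.log_le_log (by linarith) hκB
    rwa [Real.log_mul hB.ne' hHθ.ne', Real.log_rpow hHp] at h5
  have hkey : η * Real.log H - C' ≤ Real.log (∏ p ∈ F, p : ℕ) := by
    have h5 := le_abs_self (Real.log B)
    have h6 := le_abs_self C
    have e1 : η * Real.log H = ((g.natDegree + e : ℕ) - 2 - ε) * Real.log H -
        θ * Real.log H := by
      rw [hηd]; ring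
    rw [e1, hC']
    linarith
  have hpos1 : 0 ≤ σ * C' / 2 := by positivity
  have hpos2 : C' + 1 ≤ η * Real.log H := by
    have h5 : (C' + 1) / η ≤ Real.log H := by linarith
    rw [div_le_iff₀ hη] at h5
    linarith
  have hFpos : 1 ≤ Real.log (∏ p ∈ F, p : ℕ) := by linarith
  have hFne : F.Nonempty := by
    rw [Finset.nonempty_iff_ne_empty]
    rintro rfl
    rw [Finset.prod_empty, Nat.cast_one, Real.log_one] at hFpos
    linarith
  have hden : |((x.den : ℤ) : ℝ)| = (x.den : ℝ) := by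
    rw [Int.cast_natCast, Nat.abs_cast]
  refine ⟨hF0, F, fun p hp => ⟨(hF p hp).1, (hF p hp).2.2.1, (hF p hp).2.2.2.1⟩,
    c₀ * H ^ N, ?_, ?_, ?_, ?_, ?_⟩
  · have := one_le_pow₀ hH1 (n := N)
    nlinarith
  · have h6 := fv_le N A x.num (x.den : ℤ)
    rw [hden, ← hH] at h6
    refine h6.trans (mul_le_mul_of_nonneg_right ?_ (by positivity))
    rw [hc₀]; linarith
  · have h6 := fv_le N D x.num (x.den : ℤ)
    rw [hden, ← hH] at h6
    refine h6.trans (mul_le_mul_of_nonneg_right ?_ (by positivity))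
    rw [hc₀]; linarith
  · intro h0
    obtain ⟨p, hp⟩ := hFne
    apply (hF p hp).2.2.2.1
    rw [h0]
    exact dvd_zero _
  · rw [Real.log_mul (by linarith) (by positivity), Real.log_pow]
    have h5 := mul_le_mul_of_nonneg_left hkey hσ0.le
    have hlH0 : 0 ≤ Real.log H := Real.log_nonneg hH1
    have h6 : 2 * ((N : ℝ) + 1) * Real.log H ≤ σ * η * Real.log H :=
      mul_le_mul_of_nonneg_right hσ hlH0
    have h7 : 0 ≤ (C' + 1) / η := by positivity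
    nlinarith

end Pool.Agent.U964.FM
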