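import Mathlib
import Pool.Agent.U964.FM.Arith

/-!
# Poles of a rational function modulo primes, with the pole at infinity (helper964)
-/

set_option autoImplicit false

namespace Pool.Agent.U964.FM

open Polynomial
open Pool.Agent.Y670.RD (fv fv_le fv_mod fv_mul fvq)

theorem fv_succ (n : ℕ) (g : ℤ[X]) (hg : g.natDegree ≤ n) (s t : ℤ) (ht : t ≠ 0) :
    fv (n + 1) g s t = fv n g s t * t := by
  have h := fv_mul (N1 := n) (N2 := 1) (f := g) (g := 1) hg (by rw [natDegree_one]; omega)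
    (s := s) ht
  rw [mul_one] at h
  rw [h]
  congr 1
  unfold fv
  rw [Finset.sum_range_succ, Finset.sum_range_one, coeff_one_zero, coeff_one]
  simp

theorem arith3 {A D g : ℤ[X]} {N : ℕ} (hA : A.natDegree ≤ N) (hD : D.natDegree ≤ N) (hD0 : D ≠ 0)
    (hdeg : A.natDegree = N ∨ D.natDegree = N)
    (hcop : IsCoprime (A.map (Int.castRingHom ℚ)) (D.map (Int.castRingHom ℚ)))
    (hgD : g.map (Int.castRingHom ℚ) ∣ D.map (Int.castRingHom ℚ)) (e : ℕ) (he : e ≤ 1) :
    ∃ M : ℕ, 0 < M ∧ ∀ s t : ℤ, t ≠ 0 → IsCoprime s t → (e = 1 → D.natDegree < N ∨ t = 1) →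
      ∀ p : ℕ, p.Prime → ¬ p ∣ M → (p : ℤ) ∣ fv (g.natDegree + e) g s t →
        (p : ℤ) ∣ fv N D s t ∧ ¬ (p : ℤ) ∣ fv N A s t := by
  obtain ⟨M, hM, har⟩ := arith hA hD hD0 hcop rfl hgD
  refine ⟨M * (if A.coeff N = 0 then 1 else (A.coeff N).natAbs), ?_, ?_⟩
  · refine Nat.mul_pos hM ?_
    split_ifs with h
    · exact one_pos
    · exact Int.natAbs_pos.2 h
  intro s t ht hst het p hp hpM hpg
  have hpM1 : ¬ p ∣ M := fun h => hpM (h.mul_right _)
  have hpZ : Prime (p : ℤ) := Nat.prime_iff_prime_int.1 hp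
  rcases Nat.le_one_iff_eq_zero_or_eq_one.1 he with rfl | rfl
  · exact har s t ht hst p hp hpM1 hpg
  rw [fv_succ _ g le_rfl s t ht] at hpg
  rcases hpZ.dvd_or_dvd hpg with h | h
  · exact har s t ht hst p hp hpM1 h
  rcases het rfl with hDN | rfl
  · have hDc : D.coeff N = 0 := coeff_eq_zero_of_natDegree_lt hDN
    have hAN : A.natDegree = N := by
      rcases hdeg with h1 | h1
      · exact h1
      · omega
    have hA0 : A.coeff N ≠ 0 := by
      intro h0
      rw [← hAN] at h0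
      have hA0' : A = 0 := leadingCoeff_eq_zero.1 h0
      rw [hA0', natDegree_zero] at hAN
      omega
    have hs : ¬ (p : ℤ) ∣ s := by
      intro h1
      obtain ⟨a, b, hab⟩ := hst
      have h4 : (p : ℤ) ∣ 1 := by
        rw [← hab]
        exact dvd_add (h1.mul_left _) (h.mul_left _)
      exact hpZ.not_isUnit (isUnit_of_dvd_one h4)
    constructor
    · have h1 := h.trans (fv_mod N D s t)
      rwa [hDc, zero_mul, sub_zero] at h1
    · intro h2
      have h3 := dvd_sub h2 (h.trans (fv_mod N A s t))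
      rw [sub_sub_cancel] at h3
      rcases hpZ.dvd_or_dvd h3 with h4 | h4
      · apply hpM
        rw [if_neg hA0]
        exact (Int.natCast_dvd.1 h4).mul_left _
      · exact hs (hpZ.dvd_of_dvd_pow h4)
  · exact absurd (isUnit_of_dvd_one h) hpZ.not_isUnit

end Pool.Agent.U964.FM
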