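import Pool.Agent.U964.SZ.Uni
import Pool.Agent.U964.FM.Arith

/-!
# Sparse points whose poles have high multiplicity (helper964)
-/

set_option autoImplicit false

namespace Pool.Agent.U964.FM

open Polynomial
open Pool.Agent.Y670.RD (fv fv_le fv_mod fv_mul fvq)
open Pool.Agent.U964.SZ (Sp bf_core)

theorem log_prod_le (n : ℕ) (hn : 0 < n) :
    ∑ p ∈ n.primeFactors, Real.log (p : ℝ) ≤ Real.log n := by
  have h1 : (∏ p ∈ n.primeFactors, p) ∣ n := Nat.prod_primeFactors_dvd n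
  have h2 : ((∏ p ∈ n.primeFactors, p : ℕ) : ℝ) ≤ n := by exact_mod_cast Nat.le_of_dvd hn h1
  have h3 : Real.log ((∏ p ∈ n.primeFactors, p : ℕ) : ℝ) = ∑ p ∈ n.primeFactors, Real.log (p : ℝ) := by
    push_cast
    rw [Real.log_prod fun p hp => by
      have := (Nat.prime_of_mem_primeFactors hp).pos
      positivity]
  rw [← h3]
  apply Real.log_le_log _ h2
  have : 0 < ∏ p ∈ n.primeFactors, p :=
    Finset.prod_pos fun p hp => (Nat.prime_of_mem_primeFactors hp).pos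
  exact_mod_cast this

/-- if all the primes outside `c₀` which are poles are poles of order at least `P`, the height of
the sparse points is bounded -/
theorem main1 {A D g : ℤ[X]} {N γ : ℕ} (hA : A.natDegree ≤ N) (hD : D.natDegree ≤ N) (hD0 : D ≠ 0)
    (hcop : IsCoprime (A.map (Int.castRingHom ℚ)) (D.map (Int.castRingHom ℚ)))
    (hg : g.natDegree = γ) (h2γ : 2 ≤ γ) (hsq : Squarefree (g.map (Int.castRingHom ℚ)))
    (hgD : g.map (Int.castRingHom ℚ) ∣ D.map (Int.castRingHom ℚ)) (P : ℕ) (hP : 0 < P)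
    (S : Finset ℕ) (hS : ∀ p ∈ S, p.Prime) (l m : ℕ) (B ε : ℝ) (hε : 0 < ε) :
    ∃ δ C : ℝ, 0 < δ ∧ ∀ (c₀ : ℕ), 0 < c₀ → ∀ (x : ℚ) (κ : ℕ) (τ : ℚ), 0 < κ →
      fv γ g x.num x.den ≠ 0 → fv N D x.num x.den ≠ 0 →
      ((κ * ∏ p ∈ (fv γ g x.num x.den).natAbs.primeFactors \ S, p : ℕ) : ℚ) ^ m =
        fv γ g x.num x.den * τ →
      (∀ p : ℕ, p.Prime → ¬ p ∣ c₀ → ¬ (p : ℤ) ∣ fv N A x.num x.den →
        (p : ℤ) ∣ fv N D x.num x.den → P ≤ padicValInt p (fv N D x.num x.den)) →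
      Sp S l (B * (max |(x.num : ℝ)| (x.den : ℝ)) ^ δ) (x.num : ℚ) →
      Sp S l (B * (max |(x.num : ℝ)| (x.den : ℝ)) ^ δ) (x.den : ℚ) →
      Sp S l (B * (max |(x.num : ℝ)| (x.den : ℝ)) ^ δ)
        ((κ * ∏ p ∈ (fv γ g x.num x.den).natAbs.primeFactors \ S, p : ℕ) : ℚ) →
      Sp S l (B * (max |(x.num : ℝ)| (x.den : ℝ)) ^ δ) τ →
      (γ - 2 - ε - N / P) * Real.log (max |(x.num : ℝ)| (x.den : ℝ)) ≤
        Real.log κ + Real.log c₀ + C := by
  classical
  obtain ⟨δ, C, hδ, hbf⟩ := bf_core ℚ (Module.finrank_self ℚ) g γ hg h2γ hsq S hS l m B ε hε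
  obtain ⟨M, hM, har⟩ := arith hA hD hD0 hcop hg hgD
  set cD : ℝ := 1 + ∑ i ∈ Finset.range (N + 1), |(D.coeff i : ℝ)| with hcD
  have hcD1 : 1 ≤ cD := by
    have : 0 ≤ ∑ i ∈ Finset.range (N + 1), |(D.coeff i : ℝ)| :=
      Finset.sum_nonneg fun _ _ => abs_nonneg _
    rw [hcD]; linarith
  refine ⟨δ, C + Real.log M + Real.log cD / P, hδ, ?_⟩
  intro c₀ hc₀ x κ τ hκ hG0 hF0 hτ hpole h1 h2 h3 h4
  have hPR : (0 : ℝ) < P := by exact_mod_cast hP
  have hden0 : (x.den : ℤ) ≠ 0 := by exact_mod_cast x.den_nz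
  have hcopx : IsCoprime x.num (x.den : ℤ) := by
    rw [Int.isCoprime_iff_nat_coprime]
    simpa using x.reduced
  have hden : |((x.den : ℤ) : ℝ)| = (x.den : ℝ) := by
    rw [Int.cast_natCast, Nat.abs_cast]
  obtain ⟨G, hG⟩ : ∃ G : ℤ, G = fv γ g x.num x.den := ⟨_, rfl⟩
  obtain ⟨F, hF⟩ : ∃ F : ℤ, F = fv N D x.num x.den := ⟨_, rfl⟩
  rw [← hG] at hG0 hτ h3
  rw [← hF] at hF0 hpole
  obtain ⟨R, hR⟩ : ∃ R : ℕ, R = ∏ p ∈ G.natAbs.primeFactors \ S, p := ⟨_, rfl⟩
  rw [← hR] at hτ h3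
  have hR0 : 0 < R := by
    rw [hR]
    exact Finset.prod_pos fun p hp =>
      (Nat.prime_of_mem_primeFactors (Finset.mem_sdiff.mp hp).1).pos
  have hb := hbf x.num (x.den : ℤ) hcopx (κ * R) τ (Nat.mul_pos hκ hR0)
    (by rw [hτ, hG]) (fun i => by
      rw [hden]
      fin_cases i
      · exact h1
      · have : ((((x.den : ℤ)) : ℚ)) = ((x.den : ℕ) : ℚ) := Int.cast_natCast _
        change ∃ (u : Fin l → ℚ) (k : Fin l → ℤ), _ ∧ _ ∧ ((((x.den : ℤ)) : ℚ)) = _
        rw [this]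
        exact h2
      · exact h3
      · exact h4)
  rw [hden] at hb
  obtain ⟨H, hH⟩ : ∃ H : ℝ, H = max |(x.num : ℝ)| (x.den : ℝ) := ⟨_, rfl⟩
  rw [← hH] at hb ⊢
  have hH1 : 1 ≤ H := by
    rw [hH]
    refine le_max_of_le_right ?_
    exact_mod_cast x.den_pos
  have hκR : (1 : ℝ) ≤ κ := by exact_mod_cast hκ
  have hRR : (1 : ℝ) ≤ R := by exact_mod_cast hR0
  have hlog : Real.log ((κ * R : ℕ) : ℝ) = Real.log κ + Real.log R := by
    push_cast
    rw [Real.log_mul (by linarith) (by linarith)]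
  rw [hlog] at hb
  -- the radical
  set n : ℕ := c₀ * M with hn
  have hn0 : 0 < n := Nat.mul_pos hc₀ hM
  set T : Finset ℕ := (G.natAbs.primeFactors \ S) \ n.primeFactors with hT
  have hlogR : Real.log R ≤ ∑ p ∈ T, Real.log (p : ℝ) + Real.log n := by
    have e : Real.log R = ∑ p ∈ G.natAbs.primeFactors \ S, Real.log (p : ℝ) := by
      rw [hR]
      push_cast
      rw [Real.log_prod fun p hp => by
        have := (Nat.prime_of_mem_primeFactors (Finset.mem_sdiff.mp hp).1).pos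
        positivity]
    rw [e]
    have h5 := log_prod_le n hn0
    have h6 : ∑ p ∈ G.natAbs.primeFactors \ S, Real.log (p : ℝ) ≤
        ∑ p ∈ T ∪ n.primeFactors, Real.log (p : ℝ) := by
      refine Finset.sum_le_sum_of_subset_of_nonneg ?_ ?_
      · intro p hp
        rw [Finset.mem_union, hT, Finset.mem_sdiff]
        by_cases h : p ∈ n.primeFactors
        · exact Or.inr h
        · exact Or.inl ⟨hp, h⟩
      · intro p _ _
        exact Real.log_natCast_nonneg p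
    have h7 : ∑ p ∈ T ∪ n.primeFactors, Real.log (p : ℝ) ≤
        ∑ p ∈ T, Real.log (p : ℝ) + ∑ p ∈ n.primeFactors, Real.log (p : ℝ) := by
      rw [← Finset.sum_union_inter]
      have : 0 ≤ ∑ p ∈ T ∩ n.primeFactors, Real.log (p : ℝ) :=
        Finset.sum_nonneg fun p _ => Real.log_natCast_nonneg p
      linarith
    linarith
  have hhigh := high F hF0 P T (by
    intro p hp
    rw [hT, Finset.mem_sdiff, Finset.mem_sdiff] at hp
    obtain ⟨⟨hp1, -⟩, hp2⟩ := hp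
    have hpp := Nat.prime_of_mem_primeFactors hp1
    have hpn : ¬ p ∣ n := by
      intro h
      exact hp2 (Nat.mem_primeFactors.2 ⟨hpp, h, hn0.ne'⟩)
    have hpc : ¬ p ∣ c₀ := fun h => hpn (h.mul_right _)
    have hpM : ¬ p ∣ M := fun h => hpn (h.mul_left _)
    have hpG : (p : ℤ) ∣ fv γ g x.num x.den := by
      rw [← hG]
      exact Int.natCast_dvd.mpr (Nat.dvd_of_mem_primeFactors hp1)
    obtain ⟨h5, h6⟩ := har x.num x.den hden0 hcopx p hpp hpM hpG
    rw [← hF] at h5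
    exact ⟨hpp, hpole p hpp hpc h6 h5⟩)
  have hFle : Real.log |(F : ℝ)| ≤ Real.log cD + N * Real.log H := by
    have h5 : |(F : ℝ)| ≤ cD * H ^ N := by
      have h6 := fv_le N D x.num (x.den : ℤ)
      rw [← hF, hden, ← hH] at h6
      refine h6.trans (mul_le_mul_of_nonneg_right ?_ (by positivity))
      rw [hcD]
      linarith
    have h7 : (0 : ℝ) < |(F : ℝ)| := abs_pos.2 (by exact_mod_cast hF0)
    have h8 := Real.log_le_log h7 h5
    rwa [Real.log_mul (by linarith) (by positivity), Real.log_pow] at h8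
  have hsum : ∑ p ∈ T, Real.log (p : ℝ) ≤ (Real.log cD + N * Real.log H) / P := by
    rw [le_div_iff₀ hPR]
    linarith
  have hlogn : Real.log (n : ℝ) = Real.log c₀ + Real.log M := by
    rw [hn]
    push_cast
    have h5 : (c₀ : ℝ) ≠ 0 := by exact_mod_cast hc₀.ne'
    have h6 : (M : ℝ) ≠ 0 := by exact_mod_cast hM.ne'
    rw [Real.log_mul h5 h6]
  have h9 : (Real.log cD + N * Real.log H) / P = Real.log cD / P + N / P * Real.log H := by
    field_simp
  rw [h9] at hsum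
  rw [hlogn] at hlogR
  have h10 : ((γ : ℝ) - 2 - ε - N / P) * Real.log H =
      (γ - 2 - ε) * Real.log H - N / P * Real.log H := by ring
  rw [h10]
  linarith

end Pool.Agent.U964.FM
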