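import Pool.Agent.U964.SZ.Gen
import Pool.Agent.U964.FM.Arith3
import Pool.Agent.U964.FM.Main

/-!
# Many primes are poles at the sparse points (helper964)
-/

set_option autoImplicit false

namespace Pool.Agent.U964.FM

open Polynomial
open Pool.Agent.Y670.RD (fv fv_le fv_mod fv_mul fvq)
open Pool.Agent.U964.SZ (Sp bf_gen)

/-- the primes outside `c₀` which are poles -/
theorem poles_sparse {A D g : ℤ[X]} {N : ℕ} (hA : A.natDegree ≤ N) (hD : D.natDegree ≤ N)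
    (hD0 : D ≠ 0) (hdeg : A.natDegree = N ∨ D.natDegree = N)
    (hcop : IsCoprime (A.map (Int.castRingHom ℚ)) (D.map (Int.castRingHom ℚ)))
    (hsq : Squarefree (g.map (Int.castRingHom ℚ)))
    (hgD : g.map (Int.castRingHom ℚ) ∣ D.map (Int.castRingHom ℚ)) (e : ℕ) (he : e ≤ 1)
    (h2 : 2 ≤ g.natDegree + e) (S : Finset ℕ) (hS : ∀ p ∈ S, p.Prime) (l m : ℕ) (B ε : ℝ)
    (hε : 0 < ε) :
    ∃ δ C : ℝ, 0 < δ ∧ ∀ (x : ℚ) (κ : ℕ) (τ : ℚ), (e = 1 → D.natDegree < N ∨ x.den = 1) → 0 < κ →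
      fv (g.natDegree + e) g x.num x.den ≠ 0 →
      ((κ * ∏ p ∈ (fv (g.natDegree + e) g x.num x.den).natAbs.primeFactors \ S, p : ℕ) : ℚ) ^ m =
        fv (g.natDegree + e) g x.num x.den * τ →
      Sp S l (B * (max |(x.num : ℝ)| (x.den : ℝ)) ^ δ) (x.num : ℚ) →
      Sp S l (B * (max |(x.num : ℝ)| (x.den : ℝ)) ^ δ) (x.den : ℚ) →
      Sp S l (B * (max |(x.num : ℝ)| (x.den : ℝ)) ^ δ)
        ((κ * ∏ p ∈ (fv (g.natDegree + e) g x.num x.den).natAbs.primeFactors \ S, p : ℕ) : ℚ) →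
      Sp S l (B * (max |(x.num : ℝ)| (x.den : ℝ)) ^ δ) τ →
      ∃ F : Finset ℕ, (∀ p ∈ F, p.Prime ∧ p ∉ S ∧ (p : ℤ) ∣ fv N D x.num x.den ∧
        ¬ (p : ℤ) ∣ fv N A x.num x.den ∧ (p : ℤ) ∣ fv (g.natDegree + e) g x.num x.den) ∧
      ((g.natDegree + e : ℕ) - 2 - ε) * Real.log (max |(x.num : ℝ)| (x.den : ℝ)) ≤
        Real.log κ + Real.log (∏ p ∈ F, p : ℕ) + C := by
  classical
  have hinj : Function.Injective (Int.castRingHom ℚ) := Int.cast_injective
  obtain ⟨δ, C, hδ, hbf⟩ := bf_gen g (g.natDegree + e) (by omega) h2 hsq S hS l m B ε hε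
  obtain ⟨M, hM, har⟩ := arith3 hA hD hD0 hdeg hcop hgD e he
  refine ⟨δ, C + Real.log M, hδ, ?_⟩
  intro x κ τ hex hκ hG0 hτ h1 h2 h3 h4
  have hden0 : (x.den : ℤ) ≠ 0 := by exact_mod_cast x.den_nz
  have hcopx : IsCoprime x.num (x.den : ℤ) := by
    rw [Int.isCoprime_iff_nat_coprime]
    simpa using x.reduced
  have hden : |((x.den : ℤ) : ℝ)| = (x.den : ℝ) := by
    rw [Int.cast_natCast, Nat.abs_cast]
  obtain ⟨G, hG⟩ : ∃ G : ℤ, G = fv (g.natDegree + e) g x.num x.den := ⟨_, rfl⟩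
  rw [← hG] at hG0 hτ h3
  obtain ⟨R, hR⟩ : ∃ R : ℕ, R = ∏ p ∈ G.natAbs.primeFactors \ S, p := ⟨_, rfl⟩
  rw [← hR] at hτ h3
  have hR0 : 0 < R := by
    rw [hR]
    exact Finset.prod_pos fun p hp =>
      (Nat.prime_of_mem_primeFactors (Finset.mem_sdiff.mp hp).1).pos
  have hb := hbf x.num (x.den : ℤ) hcopx hden0 (max |(x.num : ℝ)| (x.den : ℝ)) (by rw [hden])
    (κ * R) τ (Nat.mul_pos hκ hR0) (by rw [hτ, hG]) h1 (by
      have : ((((x.den : ℤ)) : ℚ)) = ((x.den : ℕ) : ℚ) := Int.cast_natCast _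
      rw [this]
      exact h2) h3 h4
  obtain ⟨H, hH⟩ : ∃ H : ℝ, H = max |(x.num : ℝ)| (x.den : ℝ) := ⟨_, rfl⟩
  rw [← hH] at hb ⊢
  have hκR : (1 : ℝ) ≤ κ := by exact_mod_cast hκ
  have hRR : (1 : ℝ) ≤ R := by exact_mod_cast hR0
  have hlog : Real.log ((κ * R : ℕ) : ℝ) = Real.log κ + Real.log R := by
    push_cast
    rw [Real.log_mul (by linarith) (by linarith)]
  rw [hlog] at hb
  set T : Finset ℕ := (G.natAbs.primeFactors \ S) \ M.primeFactors with hT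
  have hTp : ∀ p ∈ T, p.Prime := fun p hp =>
    Nat.prime_of_mem_primeFactors (Finset.mem_sdiff.1 (Finset.mem_sdiff.1 hp).1).1
  have hlogT : Real.log (∏ p ∈ T, p : ℕ) = ∑ p ∈ T, Real.log (p : ℝ) := by
    push_cast
    rw [Real.log_prod fun p hp => by
      have := (hTp p hp).pos
      positivity]
  have hlogR : Real.log R ≤ ∑ p ∈ T, Real.log (p : ℝ) + Real.log M := by
    have e1 : Real.log R = ∑ p ∈ G.natAbs.primeFactors \ S, Real.log (p : ℝ) := by
      rw [hR]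
      push_cast
      rw [Real.log_prod fun p hp => by
        have := (Nat.prime_of_mem_primeFactors (Finset.mem_sdiff.mp hp).1).pos
        positivity]
    rw [e1]
    have h5 := log_prod_le M hM
    have h6 : ∑ p ∈ G.natAbs.primeFactors \ S, Real.log (p : ℝ) ≤
        ∑ p ∈ T ∪ M.primeFactors, Real.log (p : ℝ) := by
      refine Finset.sum_le_sum_of_subset_of_nonneg ?_ ?_
      · intro p hp
        rw [Finset.mem_union, hT, Finset.mem_sdiff]
        by_cases h : p ∈ M.primeFactors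
        · exact Or.inr h
        · exact Or.inl ⟨hp, h⟩
      · intro p _ _
        exact Real.log_natCast_nonneg p
    have h7 : ∑ p ∈ T ∪ M.primeFactors, Real.log (p : ℝ) ≤
        ∑ p ∈ T, Real.log (p : ℝ) + ∑ p ∈ M.primeFactors, Real.log (p : ℝ) := by
      rw [← Finset.sum_union_inter]
      have : 0 ≤ ∑ p ∈ T ∩ M.primeFactors, Real.log (p : ℝ) :=
        Finset.sum_nonneg fun p _ => Real.log_natCast_nonneg p
      linarith
    linarith
  refine ⟨T, fun p hp => ?_, ?_⟩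
  · have hpp := hTp p hp
    have h5 := Finset.mem_sdiff.1 hp
    have h6 := Finset.mem_sdiff.1 h5.1
    have hpM : ¬ p ∣ M := fun h => h5.2 (Nat.mem_primeFactors.2 ⟨hpp, h, hM.ne'⟩)
    have hpG : (p : ℤ) ∣ fv (g.natDegree + e) g x.num x.den := by
      rw [← hG]
      exact Int.natCast_dvd.mpr (Nat.dvd_of_mem_primeFactors h6.1)
    obtain ⟨k1, k2⟩ := har x.num x.den hden0 hcopx (fun h => (hex h).imp id
      (fun h' => by exact_mod_cast h')) p hpp hpM hpG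
    exact ⟨hpp, h6.2, k1, k2, hpG⟩
  · rw [hlogT]
    linarith

end Pool.Agent.U964.FM
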